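import Pool.Agent.Y323.EF.Mult

set_option autoImplicit false

/-!
# A grid in the plane over `𝔽_p` with `≥ C p` points and `o(p)` distances
-/

open Finset

namespace Pool.Agent.Y323.EF

/-- the point with the isotropic coordinates `x + i y = a`, `x - i y = b`. -/
def pnt {F : Type} [Field F] (i : F) (a b : F) : Fin 2 → F := ![(a + b) / 2, (a - b) / (2 * i)]

theorem pnt_dist {F : Type} [Field F] (h2 : (2 : F) ≠ 0) (i : F) (hi : i ^ 2 = -1) (a b a' b' : F) :
    ∑ k, (pnt i a b k - pnt i a' b' k) ^ 2 = (a - a') * (b - b') := by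
  have hi0 : i ≠ 0 := by
    intro h
    rw [h] at hi
    norm_num at hi
  rw [Fin.sum_univ_two]
  show ((a + b) / 2 - (a' + b') / 2) ^ 2 + ((a - b) / (2 * i) - (a' - b') / (2 * i)) ^ 2 = _
  have e1 : (a + b) / 2 - (a' + b') / 2 = ((a - a') + (b - b')) / 2 := by ring
  have e2 : (a - b) / (2 * i) - (a' - b') / (2 * i) = ((a - a') - (b - b')) / (2 * i) := by ring
  rw [e1, e2, div_pow, div_pow, mul_pow, hi]
  field_simp
  ring

theorem pnt_inj {F : Type} [Field F] (h2 : (2 : F) ≠ 0) (i : F) (hi : i ^ 2 = -1) (a b a' b' : F)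
    (h : pnt i a b = pnt i a' b') : a = a' ∧ b = b' := by
  have hi0 : i ≠ 0 := by
    intro h
    rw [h] at hi
    norm_num at hi
  have h0 := congrFun h 0
  have h1 := congrFun h 1
  have h0' : (a + b) / 2 = (a' + b') / 2 := h0
  have h1' : (a - b) / (2 * i) = (a' - b') / (2 * i) := h1
  have e0 : a + b = a' + b' := by
    field_simp at h0'
    exact h0'
  have e1 : a - b = a' - b' := by
    field_simp at h1'
    exact h1'
  constructor
  · have : 2 * (a - a') = 0 := by linear_combination e0 + e1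
    have := (mul_eq_zero.mp this).resolve_left h2
    linear_combination this
  · have : 2 * (b - b') = 0 := by linear_combination e0 - e1
    have := (mul_eq_zero.mp this).resolve_left h2
    linear_combination this

/-- the grid -/
def grid {F : Type} [Field F] [DecidableEq F] (i : F) (n : ℕ) : Finset (Fin 2 → F) :=
  ((Ioc 0 n) ×ˢ (Ioc 0 n)).image (fun s => pnt i (s.1 : F) (s.2 : F))

theorem cast_inj {F : Type} [Field F] (p : ℕ) [CharP F p] (n : ℕ) (hn : n ≤ p) (a b : ℕ)
    (ha : a ∈ Ioc 0 n) (hb : b ∈ Ioc 0 n) (h : (a : F) = (b : F)) : a = b := by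
  rw [Finset.mem_Ioc] at ha hb
  rw [CharP.natCast_eq_natCast F p] at h
  by_contra hne
  rcases Nat.lt_or_gt_of_ne hne with hlt | hlt
  · have h1 : p ∣ b - a := (Nat.modEq_iff_dvd' hlt.le).mp h
    have := Nat.le_of_dvd (by omega) h1
    omega
  · have h1 : p ∣ a - b := (Nat.modEq_iff_dvd' hlt.le).mp h.symm
    have := Nat.le_of_dvd (by omega) h1
    omega

theorem grid_card {F : Type} [Field F] [DecidableEq F] (h2 : (2 : F) ≠ 0) (i : F)
    (hi : i ^ 2 = -1) (p : ℕ) [CharP F p] (n : ℕ) (hn : n ≤ p) :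
    (grid i n).card = n ^ 2 := by
  unfold grid
  rw [Finset.card_image_of_injOn, Finset.card_product, Nat.card_Ioc, Nat.sub_zero, sq]
  rintro ⟨a, b⟩ hab ⟨a', b'⟩ hab' h
  rw [Finset.mem_coe, Finset.mem_product] at hab hab'
  obtain ⟨h3, h4⟩ := pnt_inj h2 i hi _ _ _ _ h
  have e1 := cast_inj p n hn a a' hab.1 hab'.1 h3
  have e2 := cast_inj p n hn b b' hab.2 hab'.2 h4
  rw [e1, e2]

theorem grid_dist {F : Type} [Field F] [DecidableEq F] (h2 : (2 : F) ≠ 0) (i : F)
    (hi : i ^ 2 = -1) (n : ℕ) :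
    (((grid i n) ×ˢ (grid i n)).image (fun s => ∑ k, (s.1 k - s.2 k) ^ 2)).card ≤
      1 + 2 * (table n).card := by
  have hsub : ((grid i n) ×ˢ (grid i n)).image (fun s => ∑ k, (s.1 k - s.2 k) ^ 2) ⊆
      {0} ∪ ((table n).image (fun m : ℕ => (m : F)) ∪ (table n).image (fun m : ℕ => -(m : F))) := by
    intro x hx
    rw [Finset.mem_image] at hx
    obtain ⟨⟨P, Q⟩, hPQ, rfl⟩ := hx
    rw [Finset.mem_product] at hPQ
    obtain ⟨hP, hQ⟩ := hPQ
    unfold grid at hP hQ
    rw [Finset.mem_image] at hP hQ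
    obtain ⟨⟨a, b⟩, hab, rfl⟩ := hP
    obtain ⟨⟨a', b'⟩, hab', rfl⟩ := hQ
    simp only [Finset.mem_product, Finset.mem_Ioc] at hab hab'
    simp only
    rw [pnt_dist h2 i hi]
    rw [Finset.mem_union, Finset.mem_union, Finset.mem_singleton, Finset.mem_image,
      Finset.mem_image]
    have hmem : ∀ u v : ℕ, 0 < u → u ≤ n → 0 < v → v ≤ n → u * v ∈ table n := by
      intro u v hu hu' hv hv'
      unfold table
      rw [Finset.mem_image]
      exact ⟨(u, v), Finset.mem_product.mpr ⟨Finset.mem_Ioc.mpr ⟨hu, hu'⟩,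
        Finset.mem_Ioc.mpr ⟨hv, hv'⟩⟩, rfl⟩
    rcases lt_trichotomy a a' with ha | ha | ha
    · rcases lt_trichotomy b b' with hb | hb | hb
      · right; left
        refine ⟨(a' - a) * (b' - b), hmem (a' - a) (b' - b) (by omega) (by omega) (by omega) (by omega), ?_⟩
        rw [Nat.cast_mul, Nat.cast_sub ha.le, Nat.cast_sub hb.le]
        ring
      · left
        rw [hb]
        ring
      · right; right
        refine ⟨(a' - a) * (b - b'), hmem (a' - a) (b - b') (by omega) (by omega) (by omega) (by omega), ?_⟩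
        rw [Nat.cast_mul, Nat.cast_sub ha.le, Nat.cast_sub hb.le]
        ring
    · left
      rw [ha]
      ring
    · rcases lt_trichotomy b b' with hb | hb | hb
      · right; right
        refine ⟨(a - a') * (b' - b), hmem (a - a') (b' - b) (by omega) (by omega) (by omega) (by omega), ?_⟩
        rw [Nat.cast_mul, Nat.cast_sub ha.le, Nat.cast_sub hb.le]
        ring
      · left
        rw [hb]
        ring
      · right; left
        refine ⟨(a - a') * (b - b'), hmem (a - a') (b - b') (by omega) (by omega) (by omega) (by omega), ?_⟩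
        rw [Nat.cast_mul, Nat.cast_sub ha.le, Nat.cast_sub hb.le]
  have h1 := Finset.card_le_card hsub
  have h3 := Finset.card_union_le ({0} : Finset F)
    ((table n).image (fun m : ℕ => (m : F)) ∪ (table n).image (fun m : ℕ => -(m : F)))
  have h4 := Finset.card_union_le ((table n).image (fun m : ℕ => (m : F)))
    ((table n).image (fun m : ℕ => -(m : F)))
  have h5 : ((table n).image (fun m : ℕ => (m : F))).card ≤ (table n).card := Finset.card_image_le
  have h6 : ((table n).image (fun m : ℕ => -(m : F))).card ≤ (table n).card := Finset.card_image_le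
  rw [Finset.card_singleton] at h3
  omega

/-- For all `C, c > 0` there is a set of at least `C p` points in the plane over some `𝔽_p`,
`p ≡ 1 mod 4`, with fewer than `c p` distances. -/
theorem plane (C c : ℝ) (hc : 0 < c) (m : ℕ) : ∃ (p n : ℕ) (_ : Fact p.Prime) (i : ZMod p),
    m < p ∧ (2 : ZMod p) ≠ 0 ∧ i ^ 2 = -1 ∧ n ≤ p ∧ C * (p : ℝ) ≤ ((grid i n).card : ℝ) ∧
      ((((grid i n) ×ˢ (grid i n)).image (fun s => ∑ k, (s.1 k - s.2 k) ^ 2)).card : ℝ) <
        c * (p : ℝ) := by
  set C' : ℝ := max C 1 with hC'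
  have hC1 : 1 ≤ C' := le_max_right _ _
  have hCC : C ≤ C' := le_max_left _ _
  obtain ⟨n0, hn0⟩ := table_small (c / (16 * C')) (by positivity)
  obtain ⟨M, hM⟩ := exists_nat_gt (max (4 * C') (2 / c))
  obtain ⟨p, hp, hpM, hmod⟩ := Nat.exists_prime_gt_modEq_one (k := 4) (M + n0 ^ 2 + m) (by norm_num)
  have hpf : Fact p.Prime := ⟨hp⟩
  have hsq : IsSquare (-1 : ZMod p) := by
    rw [ZMod.exists_sq_eq_neg_one_iff]
    have : p % 4 = 1 % 4 := hmod
    omega
  obtain ⟨i, hi⟩ := hsq
  have hi' : i ^ 2 = -1 := by rw [sq]; exact hi.symm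
  have h2 : (2 : ZMod p) ≠ 0 := by
    intro h
    have h3 : ((2 : ℕ) : ZMod p) = 0 := by exact_mod_cast h
    rw [ZMod.natCast_eq_zero_iff] at h3
    have h4 := Nat.le_of_dvd (by norm_num) h3
    have : p % 4 = 1 % 4 := hmod
    have := hp.two_le
    omega
  have hp0 : (0 : ℝ) < p := by exact_mod_cast hp.pos
  have hpM' : (M : ℝ) < p := by
    have : M < p := by omega
    exact_mod_cast this
  have hp4 : 4 * C' < p := lt_trans (lt_of_le_of_lt (le_max_left _ _) hM) hpM'
  have hp2 : 2 / c < p := lt_trans (lt_of_le_of_lt (le_max_right _ _) hM) hpM'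
  set n : ℕ := ⌈Real.sqrt (C' * p)⌉₊ with hn
  have hCp : 1 ≤ C' * p := by
    have : (1 : ℝ) ≤ p := by exact_mod_cast hp.one_lt.le
    nlinarith
  have hs1 : 1 ≤ Real.sqrt (C' * p) := by
    rw [Real.one_le_sqrt]
    exact hCp
  have hs2 : Real.sqrt (C' * p) ^ 2 = C' * p := Real.sq_sqrt (by positivity)
  have hn1 : Real.sqrt (C' * p) ≤ n := Nat.le_ceil _
  have hn2 : (n : ℝ) ≤ 2 * Real.sqrt (C' * p) := by
    have := Nat.ceil_lt_add_one (Real.sqrt_nonneg (C' * p))
    rw [← hn] at this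
    linarith
  have hnn : C' * p ≤ (n : ℝ) ^ 2 := by
    rw [← hs2]
    exact pow_le_pow_left₀ (Real.sqrt_nonneg _) hn1 2
  have hnn' : (n : ℝ) ^ 2 ≤ 4 * (C' * p) := by
    have := pow_le_pow_left₀ (Nat.cast_nonneg n) hn2 2
    rw [mul_pow, hs2] at this
    linarith
  have hnp : n ≤ p := by
    have h3 : (n : ℝ) ^ 2 ≤ (p : ℝ) ^ 2 := by nlinarith
    have h4 : (n : ℝ) ≤ p := le_of_sq_le_sq h3 hp0.le
    exact_mod_cast h4
  have hnn0 : n0 ≤ n := by
    have h3 : (n0 : ℝ) ^ 2 ≤ (n : ℝ) ^ 2 := by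
      have h5 : ((n0 ^ 2 : ℕ) : ℝ) < (p : ℕ) := by
        have : n0 ^ 2 < p := by omega
        exact_mod_cast this
      push_cast at h5
      nlinarith
    have h4 : (n0 : ℝ) ≤ n := le_of_sq_le_sq h3 (Nat.cast_nonneg _)
    exact_mod_cast h4
  refine ⟨p, n, hpf, i, by omega, h2, hi', hnp, ?_, ?_⟩
  · rw [grid_card h2 i hi' p n hnp]
    push_cast
    nlinarith
  · have h3 := grid_dist h2 i hi' n
    have h4 : ((((grid i n) ×ˢ (grid i n)).image (fun s => ∑ k, (s.1 k - s.2 k) ^ 2)).card : ℝ) ≤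
        1 + 2 * ((table n).card : ℝ) := by exact_mod_cast h3
    have h5 := hn0 n hnn0
    have h6 : c / (16 * C') * (n : ℝ) ^ 2 ≤ c / (16 * C') * (4 * (C' * p)) :=
      mul_le_mul_of_nonneg_left hnn' (by positivity)
    have h7 : c / (16 * C') * (4 * (C' * p)) = c * p / 4 := by
      have : C' ≠ 0 := by positivity
      field_simp
      ring
    have h8 : 2 < c * p := by
      rw [div_lt_iff₀ hc] at hp2
      linarith
    linarith

end Pool.Agent.Y323.EF
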