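import Mathlib

set_option autoImplicit false

/-!
# Erdős' multiplication table problem, `o(n²)`

The number of products `u v` with `1 ≤ u, v ≤ n` is `o(n²)`.  Proof with Turán's variance bound for
the number of prime divisors in a finite set of primes.
-/

open Finset

namespace Pool.Agent.Y323.EF

/-- number of the primes in `P` dividing `m` -/
noncomputable def ff (P : Finset ℕ) (m : ℕ) : ℝ := ∑ p ∈ P, if p ∣ m then (1 : ℝ) else 0

noncomputable def LL (P : Finset ℕ) : ℝ := ∑ p ∈ P, (1 : ℝ) / p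

theorem LL_nonneg (P : Finset ℕ) : 0 ≤ LL P := Finset.sum_nonneg fun p _ => by positivity

theorem count_dvd (N d : ℕ) : ∑ m ∈ Ioc 0 N, (if d ∣ m then (1 : ℝ) else 0) = ((N / d : ℕ) : ℝ) := by
  rw [Finset.sum_boole, Nat.Ioc_filter_dvd_card_eq_div]

theorem sum_ff (P : Finset ℕ) (N : ℕ) : (N : ℝ) * LL P - P.card ≤ ∑ m ∈ Ioc 0 N, ff P m := by
  unfold ff LL
  rw [Finset.sum_comm, Finset.mul_sum]
  have h : ∀ p ∈ P, (N : ℝ) * (1 / p) - 1 ≤ ∑ m ∈ Ioc 0 N, (if p ∣ m then (1 : ℝ) else 0) := by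
    intro p _
    rw [count_dvd]
    have := Nat.lt_floor_add_one ((N : ℝ) / p)
    rw [Nat.floor_div_eq_div] at this
    rw [mul_one_div]
    linarith
  calc ∑ p ∈ P, (N : ℝ) * (1 / p) - P.card = ∑ p ∈ P, ((N : ℝ) * (1 / p) - 1) := by
        rw [Finset.sum_sub_distrib, Finset.sum_const, nsmul_eq_mul, mul_one]
    _ ≤ _ := Finset.sum_le_sum h

theorem sum_ff_sq (P : Finset ℕ) (hP : ∀ p ∈ P, p.Prime) (N : ℕ) :
    ∑ m ∈ Ioc 0 N, ff P m ^ 2 ≤ (N : ℝ) * LL P + (N : ℝ) * LL P ^ 2 := by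
  have h1 : ∀ m, ff P m ^ 2 = ∑ p ∈ P, ∑ q ∈ P, (if p ∣ m ∧ q ∣ m then (1 : ℝ) else 0) := by
    intro m
    unfold ff
    rw [sq, Finset.sum_mul_sum]
    refine Finset.sum_congr rfl fun p _ => Finset.sum_congr rfl fun q _ => ?_
    by_cases hp : p ∣ m <;> by_cases hq : q ∣ m <;> simp [hp, hq]
  rw [Finset.sum_congr rfl fun m _ => h1 m, Finset.sum_comm]
  have h2 : ∀ p ∈ P, ∑ m ∈ Ioc 0 N, ∑ q ∈ P, (if p ∣ m ∧ q ∣ m then (1 : ℝ) else 0) ≤
      (N : ℝ) * (1 / p) + ∑ q ∈ P, (N : ℝ) * (1 / p) * (1 / q) := by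
    intro p hp
    rw [Finset.sum_comm]
    have h3 : ∀ q ∈ P, ∑ m ∈ Ioc 0 N, (if p ∣ m ∧ q ∣ m then (1 : ℝ) else 0) ≤
        (if q = p then (N : ℝ) * (1 / p) else 0) + (N : ℝ) * (1 / p) * (1 / q) := by
      intro q hq
      by_cases hqp : q = p
      · rw [if_pos hqp, hqp]
        simp only [and_self]
        rw [count_dvd]
        have h4 : ((N / p : ℕ) : ℝ) ≤ (N : ℝ) / p := Nat.cast_div_le
        have h5 : (0 : ℝ) ≤ (N : ℝ) / p * (1 / p) := by positivity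
        rw [mul_one_div]
        linarith
      · rw [if_neg hqp, zero_add]
        have hc : Nat.Coprime p q := (Nat.coprime_primes (hP p hp) (hP q hq)).mpr (Ne.symm hqp)
        have h6 : ∀ m, (p ∣ m ∧ q ∣ m) ↔ p * q ∣ m := fun m =>
          ⟨fun h => hc.mul_dvd_of_dvd_of_dvd h.1 h.2,
            fun h => ⟨(dvd_mul_right p q).trans h, (dvd_mul_left q p).trans h⟩⟩
        simp only [h6]
        rw [count_dvd]
        have h4 : ((N / (p * q) : ℕ) : ℝ) ≤ (N : ℝ) / ((p * q : ℕ) : ℝ) := Nat.cast_div_le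
        refine h4.trans (le_of_eq ?_)
        push_cast
        field_simp
    refine (Finset.sum_le_sum h3).trans (le_of_eq ?_)
    rw [Finset.sum_add_distrib, Finset.sum_ite_eq' P p, if_pos hp]
  refine (Finset.sum_le_sum h2).trans (le_of_eq ?_)
  rw [Finset.sum_add_distrib]
  unfold LL
  rw [sq, Finset.sum_mul_sum, Finset.mul_sum, Finset.mul_sum]
  congr 1
  refine Finset.sum_congr rfl fun p _ => ?_
  rw [Finset.mul_sum]
  refine Finset.sum_congr rfl fun q _ => ?_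
  ring

theorem turan (P : Finset ℕ) (hP : ∀ p ∈ P, p.Prime) (N : ℕ) (hN : 2 * P.card ≤ N) :
    ∑ m ∈ Ioc 0 N, (ff P m - LL P) ^ 2 ≤ 2 * ((N : ℝ) * LL P) := by
  have h1 := sum_ff P N
  have h2 := sum_ff_sq P hP N
  have hL := LL_nonneg P
  have hN' : 2 * (P.card : ℝ) ≤ N := by exact_mod_cast hN
  have e : ∑ m ∈ Ioc 0 N, (ff P m - LL P) ^ 2 =
      ∑ m ∈ Ioc 0 N, ff P m ^ 2 - 2 * LL P * ∑ m ∈ Ioc 0 N, ff P m + N * LL P ^ 2 := by
    rw [Finset.mul_sum, ← Finset.sum_sub_distrib]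
    have : (N : ℝ) * LL P ^ 2 = ∑ m ∈ Ioc 0 N, LL P ^ 2 := by
      rw [Finset.sum_const, nsmul_eq_mul, Nat.card_Ioc, Nat.sub_zero]
    rw [this, ← Finset.sum_add_distrib]
    refine Finset.sum_congr rfl fun m _ => ?_
    ring
  rw [e]
  have h3 : 2 * LL P * ((N : ℝ) * LL P - P.card) ≤ 2 * LL P * ∑ m ∈ Ioc 0 N, ff P m :=
    mul_le_mul_of_nonneg_left h1 (by positivity)
  have h4 : LL P * (2 * (P.card : ℝ)) ≤ LL P * N := mul_le_mul_of_nonneg_left hN' hL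
  nlinarith

/-- Chebyshev's inequality -/
theorem cheb (P : Finset ℕ) (hP : ∀ p ∈ P, p.Prime) (N : ℕ) (hN : 2 * P.card ≤ N) (δ : ℝ)
    (hδ : 0 < δ) (hL : 0 < LL P) (S : Finset ℕ) (hS : S ⊆ Ioc 0 N)
    (h : ∀ m ∈ S, δ * LL P ≤ |ff P m - LL P|) :
    (S.card : ℝ) * (δ ^ 2 * LL P) ≤ 2 * (N : ℝ) := by
  have h1 := turan P hP N hN
  have h2 : (S.card : ℝ) * (δ * LL P) ^ 2 ≤ ∑ m ∈ Ioc 0 N, (ff P m - LL P) ^ 2 := by
    calc (S.card : ℝ) * (δ * LL P) ^ 2 = ∑ m ∈ S, (δ * LL P) ^ 2 := by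
          rw [Finset.sum_const, nsmul_eq_mul]
      _ ≤ ∑ m ∈ S, (ff P m - LL P) ^ 2 := by
          refine Finset.sum_le_sum fun m hm => ?_
          rw [← sq_abs (ff P m - LL P)]
          exact pow_le_pow_left₀ (by positivity) (h m hm) 2
      _ ≤ _ := Finset.sum_le_sum_of_subset_of_nonneg hS fun _ _ _ => sq_nonneg _
  have h3 := h2.trans h1
  have h4 : (S.card : ℝ) * (δ ^ 2 * LL P) * LL P ≤ 2 * (N : ℝ) * LL P := by
    calc _ = (S.card : ℝ) * (δ * LL P) ^ 2 := by ring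
      _ ≤ _ := h3
      _ = _ := by ring
  exact le_of_mul_le_mul_right h4 hL

theorem sum_inv_sq_le (P : Finset ℕ) (hP : ∀ p ∈ P, p.Prime) :
    ∑ p ∈ P, ((p : ℝ) ^ 2)⁻¹ ≤ 1 := by
  obtain ⟨n, hn⟩ : ∃ n : ℕ, ∀ p ∈ P, p ≤ n := ⟨P.sup id, fun p hp => Finset.le_sup (f := id) hp⟩
  calc ∑ p ∈ P, ((p : ℝ) ^ 2)⁻¹ ≤ ∑ p ∈ Ioc 1 (n + 1), ((p : ℝ) ^ 2)⁻¹ := by
        refine Finset.sum_le_sum_of_subset_of_nonneg ?_ fun _ _ _ => by positivity
        intro p hp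
        rw [Finset.mem_Ioc]
        exact ⟨(hP p hp).one_lt, (hn p hp).trans (Nat.le_succ n)⟩
    _ ≤ ((1 : ℕ) : ℝ)⁻¹ - ((n + 1 : ℕ) : ℝ)⁻¹ :=
        sum_Ioc_inv_sq_le_sub (by norm_num) (by omega)
    _ ≤ 1 := by
        have : (0 : ℝ) ≤ ((n + 1 : ℕ) : ℝ)⁻¹ := by positivity
        push_cast at this ⊢
        linarith

/-- the common prime divisors -/
noncomputable def gg (P : Finset ℕ) (u v : ℕ) : ℝ := ∑ p ∈ P, if p ∣ u ∧ p ∣ v then (1 : ℝ) else 0

theorem ff_mul (P : Finset ℕ) (hP : ∀ p ∈ P, p.Prime) (u v : ℕ) :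
    ff P (u * v) = ff P u + ff P v - gg P u v := by
  unfold ff gg
  rw [← Finset.sum_add_distrib, ← Finset.sum_sub_distrib]
  refine Finset.sum_congr rfl fun p hp => ?_
  have h := (hP p hp).dvd_mul (m := u) (n := v)
  by_cases hu : p ∣ u <;> by_cases hv : p ∣ v <;> simp [h, hu, hv]

theorem sum_gg (P : Finset ℕ) (hP : ∀ p ∈ P, p.Prime) (n : ℕ) :
    ∑ u ∈ Ioc 0 n, ∑ v ∈ Ioc 0 n, gg P u v ≤ (n : ℝ) ^ 2 := by
  unfold gg
  have h1 : ∑ u ∈ Ioc 0 n, ∑ v ∈ Ioc 0 n, ∑ p ∈ P, (if p ∣ u ∧ p ∣ v then (1 : ℝ) else 0) =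
      ∑ p ∈ P, ((n / p : ℕ) : ℝ) ^ 2 := by
    rw [Finset.sum_congr rfl fun u _ => Finset.sum_comm, Finset.sum_comm]
    refine Finset.sum_congr rfl fun p _ => ?_
    rw [← count_dvd, sq, Finset.sum_mul_sum]
    refine Finset.sum_congr rfl fun u _ => Finset.sum_congr rfl fun v _ => ?_
    by_cases hu : p ∣ u <;> by_cases hv : p ∣ v <;> simp [hu, hv]
  rw [h1]
  calc ∑ p ∈ P, ((n / p : ℕ) : ℝ) ^ 2 ≤ ∑ p ∈ P, (n : ℝ) ^ 2 * ((p : ℝ) ^ 2)⁻¹ := by
        refine Finset.sum_le_sum fun p _ => ?_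
        have : ((n / p : ℕ) : ℝ) ≤ (n : ℝ) / p := Nat.cast_div_le
        calc ((n / p : ℕ) : ℝ) ^ 2 ≤ ((n : ℝ) / p) ^ 2 := pow_le_pow_left₀ (by positivity) this 2
          _ = _ := by rw [div_pow, div_eq_mul_inv]
    _ = (n : ℝ) ^ 2 * ∑ p ∈ P, ((p : ℝ) ^ 2)⁻¹ := by rw [Finset.mul_sum]
    _ ≤ (n : ℝ) ^ 2 * 1 := mul_le_mul_of_nonneg_left (sum_inv_sq_le P hP) (by positivity)
    _ = _ := mul_one _

/-- the products `u v`, `1 ≤ u, v ≤ n` -/
def table (n : ℕ) : Finset ℕ := ((Ioc 0 n) ×ˢ (Ioc 0 n)).image (fun s => s.1 * s.2)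

theorem table_le (P : Finset ℕ) (hP : ∀ p ∈ P, p.Prime) (hL : 0 < LL P) (n : ℕ)
    (hn : 2 * P.card ≤ n) : ((table n).card : ℝ) * LL P ≤ 268 * (n : ℝ) ^ 2 := by
  classical
  set L := LL P with hLdef
  -- the products with many prime divisors
  set S1 : Finset ℕ := (Ioc 0 (n ^ 2)).filter (fun m => 3 / 2 * L ≤ ff P m) with hS1
  -- the numbers with few prime divisors
  set S2 : Finset ℕ := (Ioc 0 n).filter (fun u => ff P u < 7 / 8 * L) with hS2
  set T3 : Finset (ℕ × ℕ) := ((Ioc 0 n) ×ˢ (Ioc 0 n)).filter (fun s => L / 4 ≤ gg P s.1 s.2) with hT3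
  have hsub : table n ⊆ S1 ∪ ((S2 ×ˢ (Ioc 0 n)) ∪ ((Ioc 0 n) ×ˢ S2) ∪ T3).image
      (fun s => s.1 * s.2) := by
    intro m hm
    unfold table at hm
    rw [Finset.mem_image] at hm
    obtain ⟨⟨u, v⟩, huv, rfl⟩ := hm
    rw [Finset.mem_product] at huv
    obtain ⟨hu, hv⟩ := huv
    simp only at hu hv
    rw [Finset.mem_union]
    by_cases h1 : 3 / 2 * L ≤ ff P (u * v)
    · left
      rw [hS1, Finset.mem_filter, Finset.mem_Ioc]
      rw [Finset.mem_Ioc] at hu hv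
      refine ⟨⟨Nat.mul_pos hu.1 hv.1, ?_⟩, h1⟩
      calc u * v ≤ n * n := Nat.mul_le_mul hu.2 hv.2
        _ = n ^ 2 := (sq n).symm
    · right
      rw [Finset.mem_image]
      refine ⟨(u, v), ?_, rfl⟩
      rw [Finset.mem_union, Finset.mem_union]
      by_cases h2 : ff P u < 7 / 8 * L
      · left; left
        rw [Finset.mem_product]
        exact ⟨Finset.mem_filter.mpr ⟨hu, h2⟩, hv⟩
      · by_cases h3 : ff P v < 7 / 8 * L
        · left; right
          rw [Finset.mem_product]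
          exact ⟨hu, Finset.mem_filter.mpr ⟨hv, h3⟩⟩
        · right
          rw [hT3, Finset.mem_filter, Finset.mem_product]
          refine ⟨⟨hu, hv⟩, ?_⟩
          have h4 := ff_mul P hP u v
          push Not at h1 h2 h3
          simp only
          linarith
  have hc1 : ((table n).card : ℝ) ≤ S1.card + (2 * ((S2.card : ℝ) * n) + T3.card) := by
    have h1 := Finset.card_le_card hsub
    have h2 := Finset.card_union_le S1 (((S2 ×ˢ (Ioc 0 n)) ∪ ((Ioc 0 n) ×ˢ S2) ∪ T3).image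
      (fun s => s.1 * s.2))
    have h3 : (((S2 ×ˢ (Ioc 0 n)) ∪ ((Ioc 0 n) ×ˢ S2) ∪ T3).image (fun s => s.1 * s.2)).card ≤
        ((S2 ×ˢ (Ioc 0 n)) ∪ ((Ioc 0 n) ×ˢ S2) ∪ T3).card := Finset.card_image_le
    have h4 := Finset.card_union_le ((S2 ×ˢ (Ioc 0 n)) ∪ ((Ioc 0 n) ×ˢ S2)) T3
    have h5 := Finset.card_union_le (S2 ×ˢ (Ioc 0 n)) ((Ioc 0 n) ×ˢ S2)
    rw [Finset.card_product, Finset.card_product, Nat.card_Ioc, Nat.sub_zero] at h5
    have h6 : (table n).card ≤ S1.card + (2 * (S2.card * n) + T3.card) := by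
      have : n * S2.card = S2.card * n := mul_comm _ _
      omega
    exact_mod_cast h6
  -- first set
  have b1 : (S1.card : ℝ) * L ≤ 8 * (n : ℝ) ^ 2 := by
    have h1 := cheb P hP (n ^ 2) (by nlinarith [Nat.zero_le n]) (1 / 2) (by norm_num) hL S1
      (Finset.filter_subset _ _) (by
        intro m hm
        have h := (Finset.mem_filter.mp hm).2
        rw [← hLdef]
        rw [abs_of_nonneg (by linarith)]
        linarith)
    push_cast at h1
    nlinarith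
  have b2 : (S2.card : ℝ) * L ≤ 128 * (n : ℝ) := by
    have h1 := cheb P hP n hn (1 / 8) (by norm_num) hL S2 (Finset.filter_subset _ _) (by
        intro m hm
        have h := (Finset.mem_filter.mp hm).2
        rw [← hLdef]
        rw [abs_of_nonpos (by linarith)]
        linarith)
    nlinarith
  have b3 : (T3.card : ℝ) * L ≤ 4 * (n : ℝ) ^ 2 := by
    have h1 := sum_gg P hP n
    rw [← Finset.sum_product'] at h1
    have h2 : (T3.card : ℝ) * (L / 4) ≤ ∑ s ∈ (Ioc 0 n) ×ˢ (Ioc 0 n), gg P s.1 s.2 := by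
      calc (T3.card : ℝ) * (L / 4) = ∑ s ∈ T3, L / 4 := by rw [Finset.sum_const, nsmul_eq_mul]
        _ ≤ ∑ s ∈ T3, gg P s.1 s.2 := Finset.sum_le_sum fun s hs => (Finset.mem_filter.mp hs).2
        _ ≤ _ := Finset.sum_le_sum_of_subset_of_nonneg (Finset.filter_subset _ _) fun s _ _ =>
            Finset.sum_nonneg fun p _ => by split_ifs <;> norm_num
    linarith
  have hn0 : (0 : ℝ) ≤ n := Nat.cast_nonneg _
  have h7 := mul_le_mul_of_nonneg_right hc1 hL.le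
  have h8 := mul_le_mul_of_nonneg_right b2 hn0
  nlinarith

/-- **Erdős.** The multiplication table of the numbers up to `n` has `o(n²)` different entries. -/
theorem table_small (ε : ℝ) (hε : 0 < ε) : ∃ n0 : ℕ, ∀ n : ℕ, n0 ≤ n →
    ((table n).card : ℝ) ≤ ε * (n : ℝ) ^ 2 := by
  -- a finite set of primes with large sum of reciprocals
  obtain ⟨P, hP, hL⟩ : ∃ P : Finset ℕ, (∀ p ∈ P, p.Prime) ∧ 268 / ε ≤ LL P := by
    by_contra hcon
    push Not at hcon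
    apply Nat.Primes.not_summable_one_div
    refine summable_of_sum_le (c := 268 / ε) (fun p => by positivity) ?_
    intro u
    have h := hcon (u.map ⟨(fun p : Nat.Primes => (p : ℕ)), Subtype.val_injective⟩) (by
      intro p hp
      rw [Finset.mem_map] at hp
      obtain ⟨q, _, rfl⟩ := hp
      exact q.2)
    unfold LL at h
    rw [Finset.sum_map] at h
    exact h.le
  have hL0 : 0 < LL P := lt_of_lt_of_le (by positivity) hL
  refine ⟨2 * P.card, fun n hn => ?_⟩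
  have h := table_le P hP hL0 n hn
  have h1 : 268 ≤ ε * LL P := by
    rw [div_le_iff₀ hε] at hL
    linarith
  have h2 : ((table n).card : ℝ) * LL P ≤ (ε * (n : ℝ) ^ 2) * LL P := by
    refine h.trans ?_
    have : (0 : ℝ) ≤ (n : ℝ) ^ 2 := by positivity
    nlinarith
  exact le_of_mul_le_mul_right h2 hL0

end Pool.Agent.Y323.EF
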